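import Pool.Agent.Lib.MP_7946c7_pr.Defs

/-!
# Stream B, job PTa: the law of the random spanning tree

`PT c S = sumT c S / sumT c univ`, `sumT c S = ∑ T, if T.IsTree ∧ T ∈ S then wtT c T else 0`
(Defs.lean).  First show `0 < wtT c T` (a product of positive factors) and `0 < sumT c univ`:
the complete graph on the nonempty finite `V` is connected, so it contains a spanning tree
(`SimpleGraph.Connected.exists_isTree_le`).
-/

set_option autoImplicit false

open Finset MeasureTheory

namespace RST.B

variable {V : Type} [Fintype V] [Nonempty V] {c : Sym2 V → ℝ}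

omit [Nonempty V] in
private theorem pta_wt_pos (hc : ∀ e, 0 < c e) (T : SimpleGraph V) : 0 < wtT c T := by
  classical
  unfold wtT
  refine Finset.prod_pos fun e _ => ?_
  split_ifs
  · exact hc e
  · exact one_pos

omit [Nonempty V] in
private theorem pta_sum_nonneg (hc : ∀ e, 0 < c e) (S : Set (SimpleGraph V)) :
    0 ≤ sumT c S := by
  classical
  unfold sumT
  refine Finset.sum_nonneg fun T _ => ?_
  split_ifs
  · exact (pta_wt_pos hc T).le
  · exact le_rfl

omit [Nonempty V] in
private theorem pta_sum_mono (hc : ∀ e, 0 < c e) {S T : Set (SimpleGraph V)}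
    (h : ∀ G : SimpleGraph V, G.IsTree → G ∈ S → G ∈ T) : sumT c S ≤ sumT c T := by
  classical
  unfold sumT
  refine Finset.sum_le_sum fun G _ => ?_
  by_cases h1 : G.IsTree ∧ G ∈ S
  · rw [if_pos h1, if_pos ⟨h1.1, h G h1.1 h1.2⟩]
  · rw [if_neg h1]
    split_ifs
    · exact (pta_wt_pos hc G).le
    · exact le_rfl

theorem sumT_pos (hc : ∀ e, 0 < c e) : 0 < sumT c (Set.univ : Set (SimpleGraph V)) := by
  classical
  obtain ⟨T, _, hT⟩ := (SimpleGraph.connected_top (V := V)).exists_isTree_le
  unfold sumT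
  refine Finset.sum_pos' (fun G _ => ?_) ⟨T, Finset.mem_univ T, ?_⟩
  · split_ifs
    · exact (pta_wt_pos hc G).le
    · exact le_rfl
  · rw [if_pos ⟨hT, Set.mem_univ _⟩]
    exact pta_wt_pos hc T

theorem PT_nonneg (hc : ∀ e, 0 < c e) (S : Set (SimpleGraph V)) : 0 ≤ PT c S :=
  div_nonneg (pta_sum_nonneg hc S) (sumT_pos hc).le

theorem PT_univ (hc : ∀ e, 0 < c e) : PT c (Set.univ : Set (SimpleGraph V)) = 1 :=
  div_self (sumT_pos hc).ne'

theorem PT_mono (hc : ∀ e, 0 < c e) {S T : Set (SimpleGraph V)}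
    (h : ∀ G : SimpleGraph V, G.IsTree → G ∈ S → G ∈ T) : PT c S ≤ PT c T :=
  div_le_div_of_nonneg_right (pta_sum_mono hc h) (sumT_pos hc).le

omit [Nonempty V] in
private theorem pta_sum_compl (S : Set (SimpleGraph V)) :
    sumT c Sᶜ = sumT c (Set.univ : Set (SimpleGraph V)) - sumT c S := by
  classical
  unfold sumT
  rw [← Finset.sum_sub_distrib]
  refine Finset.sum_congr rfl fun G _ => ?_
  by_cases h1 : G.IsTree <;> by_cases h2 : G ∈ S <;> simp [h1, h2]

theorem PT_compl (hc : ∀ e, 0 < c e) (S : Set (SimpleGraph V)) : PT c Sᶜ = 1 - PT c S := by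
  unfold PT
  rw [pta_sum_compl, sub_div, div_self (sumT_pos hc).ne']

theorem PT_union_le (hc : ∀ e, 0 < c e) (S T : Set (SimpleGraph V)) :
    PT c (S ∪ T) ≤ PT c S + PT c T := by
  classical
  unfold PT
  rw [← add_div]
  refine div_le_div_of_nonneg_right ?_ (sumT_pos hc).le
  unfold sumT
  rw [← Finset.sum_add_distrib]
  refine Finset.sum_le_sum fun G _ => ?_
  have hw := (pta_wt_pos hc G).le
  by_cases h1 : G.IsTree <;> by_cases h2 : G ∈ S <;> by_cases h3 : G ∈ T <;>
    simp [h1, h2, h3, hw]

theorem PT_exists_le (hc : ∀ e, 0 < c e) {κ : Type} (s : Finset κ)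
    (S : κ → Set (SimpleGraph V)) : PT c {T | ∃ i ∈ s, T ∈ S i} ≤ ∑ i ∈ s, PT c (S i) := by
  classical
  induction s using Finset.induction_on with
  | empty =>
    have : PT c {T : SimpleGraph V | ∃ i ∈ (∅ : Finset κ), T ∈ S i} = 0 := by
      unfold PT sumT
      simp
    rw [this]
    simp
  | insert a s ha ih =>
    rw [Finset.sum_insert ha]
    refine le_trans (PT_mono hc ?_) (le_trans (PT_union_le hc (S a) {T | ∃ i ∈ s, T ∈ S i})
      (add_le_add le_rfl ih))
    rintro G _ ⟨i, hi, hG⟩
    rcases Finset.mem_insert.mp hi with rfl | hi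
    · exact Or.inl hG
    · exact Or.inr ⟨i, hi, hG⟩

omit [Nonempty V] in
private theorem pta_wt_scale (a : ℝ) (T : SimpleGraph V) (hT : T.IsTree) :
    wtT (fun e => a * c e) T = a ^ (Fintype.card V - 1) * wtT c T := by
  classical
  unfold wtT
  have h1 : (∏ e : Sym2 V, if e ∈ T.edgeSet then a * c e else 1) =
      (∏ e : Sym2 V, if e ∈ T.edgeSet then a else 1) *
        ∏ e : Sym2 V, if e ∈ T.edgeSet then c e else 1 := by
    rw [← Finset.prod_mul_distrib]
    refine Finset.prod_congr rfl fun e _ => ?_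
    split_ifs <;> simp
  have h2 : (∏ e : Sym2 V, if e ∈ T.edgeSet then a else 1) = a ^ (Fintype.card V - 1) := by
    rw [← Finset.prod_filter, Finset.prod_const]
    congr 1
    have h3 := hT.card_edgeFinset
    have h4 : (univ.filter fun e : Sym2 V => e ∈ T.edgeSet) = T.edgeFinset := by
      ext e
      simp
    rw [h4]
    omega
  have h5 : (∏ e : Sym2 V, if e ∈ T.edgeSet then a * c e else 1) =
      a ^ (Fintype.card V - 1) * ∏ e : Sym2 V, if e ∈ T.edgeSet then c e else 1 := by
    rw [h1, h2]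
  convert h5

/-- The law of the tree does not change if all the conductances are multiplied by a constant:
`wtT (a c) T = a^(|V|-1) wtT c T` for every spanning tree
(`SimpleGraph.IsTree.card_edgeFinset`). -/
theorem PT_scale (a : ℝ) (ha : 0 < a) (S : Set (SimpleGraph V)) :
    PT (fun e => a * c e) S = PT c S := by
  classical
  have h1 : ∀ S : Set (SimpleGraph V), sumT (fun e => a * c e) S =
      a ^ (Fintype.card V - 1) * sumT c S := by
    intro S
    unfold sumT
    rw [Finset.mul_sum]
    refine Finset.sum_congr rfl fun G _ => ?_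
    by_cases h : G.IsTree ∧ G ∈ S
    · rw [if_pos h, if_pos h, pta_wt_scale a G h.1]
    · rw [if_neg h, if_neg h, mul_zero]
  unfold PT
  rw [h1, h1]
  exact mul_div_mul_left _ _ (pow_pos ha _).ne'

end RST.B
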