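import Pool.Agent.Lib.MP_7946c7_pr.B.Defs
import Pool.Agent.Lib.MP_7946c7_pr.B.PTa

/-!
# Stream B, job Avg: averaging
-/

set_option autoImplicit false

open Finset MeasureTheory

namespace RST.B

theorem prob_labLaw (n : ℕ) : IsProbabilityMeasure (labLaw n) := by
  have hprob : IsProbabilityMeasure (volume.restrict (Set.Icc (0 : ℝ) 1)) := by
    constructor
    rw [Measure.restrict_apply_univ, Real.volume_Icc]
    simp
  unfold labLaw
  infer_instance

theorem Avg_cont_sumT (n : ℕ) (β : ℝ) (S : Set (SimpleGraph (Fin n))) :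
    Continuous fun ω : Sym2 (Fin n) → ℝ => sumT (fun e => Real.exp (-β * ω e)) S := by
  classical
  unfold sumT
  refine continuous_finsetSum _ fun T _ => ?_
  by_cases h : T.IsTree ∧ T ∈ S
  · simp only [h, and_self, if_true]
    unfold wtT
    refine continuous_finsetProd _ fun e _ => ?_
    by_cases he : e ∈ T.edgeSet
    · simp only [he, if_true]
      exact Real.continuous_exp.comp ((continuous_apply e).const_mul _ |>.congr fun _ => rfl)
    · simp only [he, if_false]
      exact continuous_const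
  · simp only [h, if_false]
    exact continuous_const

/-- `ω ↦ PT (fun e => exp (-β ω e)) S` is continuous (a quotient of finite sums of products of
exponentials, the denominator is positive) with values in `[0,1]`, so it is integrable with
respect to the probability measure `labLaw n` -/
theorem integrable_PT (n : ℕ) (hn : 0 < n) (β : ℝ) (S : Set (SimpleGraph (Fin n))) :
    Integrable (fun ω : Sym2 (Fin n) → ℝ => PT (fun e => Real.exp (-β * ω e)) S) (labLaw n) := by
  have : NeZero n := ⟨hn.ne'⟩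
  have hp := prob_labLaw n
  have hpos : ∀ ω : Sym2 (Fin n) → ℝ, ∀ e, 0 < Real.exp (-β * ω e) := fun ω e => Real.exp_pos _
  have hc : Continuous fun ω : Sym2 (Fin n) → ℝ => PT (fun e => Real.exp (-β * ω e)) S := by
    unfold PT
    exact (Avg_cont_sumT n β S).div (Avg_cont_sumT n β Set.univ)
      fun ω => (sumT_pos (hpos ω)).ne'
  refine Integrable.of_bound hc.aestronglyMeasurable 1 (Filter.Eventually.of_forall fun ω => ?_)
  have h0 := PT_nonneg (hpos ω) S
  have h1 : PT (fun e => Real.exp (-β * ω e)) S ≤ 1 := by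
    rw [← PT_univ (V := Fin n) (hpos ω)]
    exact PT_mono (hpos ω) fun _ _ _ => Set.mem_univ _
  rw [Real.norm_eq_abs, abs_of_nonneg h0]
  exact h1

/-- almost surely the labels are in `[0,1]` -/
theorem ae_labLaw (n : ℕ) : ∀ᵐ ω ∂labLaw n, ∀ e, 0 ≤ ω e ∧ ω e ≤ 1 := by
  have hprob : IsProbabilityMeasure (volume.restrict (Set.Icc (0 : ℝ) 1)) := by
    constructor
    rw [Measure.restrict_apply_univ, Real.volume_Icc]
    simp
  rw [MeasureTheory.ae_all_iff]
  intro e
  have h1 : ∀ᵐ t ∂(volume.restrict (Set.Icc (0 : ℝ) 1)), 0 ≤ t ∧ t ≤ 1 := by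
    rw [ae_restrict_iff' measurableSet_Icc]
    exact Filter.Eventually.of_forall fun t ht => ht
  have h2 : MeasurePreserving (Function.eval e) (labLaw n) (volume.restrict (Set.Icc (0 : ℝ) 1)) := by
    unfold labLaw
    exact measurePreserving_eval (fun _ : Sym2 (Fin n) => volume.restrict (Set.Icc (0 : ℝ) 1)) e
  exact h2.quasiMeasurePreserving.ae h1

/-- Averaging.  `exp(-(β/n) (n ω e - 1)) = exp(β/n) exp(-β ω e)`, so by `PT_scale` the law does not
change.  `avg = ∫ PT ≥ ∫_A PT ≥ (1-ε₂) P(A)` if `ε₂ ≤ 1`, and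
`(1-ε₂)(1-ε₁') ≥ 1 - ε₁ - ε₂` for `ε₁' = P(Aᶜ) ≤ ε₁`; if `ε₂ > 1`: `avg ≥ 0`. -/
theorem avg_ge (n : ℕ) (hn : 0 < n) (β : ℝ) (S : Set (SimpleGraph (Fin n)))
    (A : Set (Sym2 (Fin n) → ℝ)) (hA : MeasurableSet A) (ε₁ ε₂ : ℝ)
    (h1 : (labLaw n Aᶜ).toReal ≤ ε₁)
    (h2 : ∀ ω ∈ A, (∀ e, 0 ≤ ω e ∧ ω e ≤ 1) →
      1 - ε₂ ≤ PT (fun e => Real.exp (-(β / n) * xlab n ω e)) S) (hε : 0 ≤ ε₂) :
    1 - ε₁ - ε₂ ≤ avg n β S := by
  have : NeZero n := ⟨hn.ne'⟩
  have hn' : (n : ℝ) ≠ 0 := by exact_mod_cast hn.ne'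
  have hp := prob_labLaw n
  have hpos : ∀ ω : Sym2 (Fin n) → ℝ, ∀ e, 0 < Real.exp (-β * ω e) := fun ω e => Real.exp_pos _
  have hsc : ∀ ω : Sym2 (Fin n) → ℝ, PT (fun e => Real.exp (-(β / n) * xlab n ω e)) S =
      PT (fun e => Real.exp (-β * ω e)) S := by
    intro ω
    rw [← PT_scale (Real.exp (β / n)) (Real.exp_pos _) S (c := fun e => Real.exp (-β * ω e))]
    congr 1
    funext e
    rw [← Real.exp_add]
    congr 1
    unfold xlab
    field_simp
    ring
  have hint : Integrable (fun ω : Sym2 (Fin n) → ℝ => A.indicator (fun _ => (1 : ℝ)) ω - ε₂)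
      (labLaw n) :=
    ((integrable_const (1 : ℝ)).indicator hA).sub (integrable_const _)
  have hle : (fun ω : Sym2 (Fin n) → ℝ => A.indicator (fun _ => (1 : ℝ)) ω - ε₂) ≤ᵐ[labLaw n]
      fun ω => PT (fun e => Real.exp (-β * ω e)) S := by
    filter_upwards [ae_labLaw n] with ω hω
    by_cases h : ω ∈ A
    · rw [Set.indicator_of_mem h, ← hsc ω]
      exact h2 ω h hω
    · rw [Set.indicator_of_notMem h]
      have := PT_nonneg (hpos ω) S
      linarith
  have h3 := integral_mono_ae hint (integrable_PT n hn β S) hle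
  have h4 : ∫ ω, (A.indicator (fun _ => (1 : ℝ)) ω - ε₂) ∂labLaw n =
      (labLaw n A).toReal - ε₂ := by
    rw [integral_sub ((integrable_const (1 : ℝ)).indicator hA) (integrable_const _),
      integral_indicator hA]
    simp [Measure.real]
  have h5 : (labLaw n A).toReal = 1 - (labLaw n Aᶜ).toReal := by
    have h6 := prob_compl_eq_one_sub (μ := labLaw n) hA
    rw [h6, ENNReal.toReal_sub_of_le prob_le_one ENNReal.one_ne_top, ENNReal.toReal_one]
    ring
  unfold avg
  rw [h4, h5] at h3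
  linarith

end RST.B
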