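import Pool.Agent.Lib.MP_7946c7_pr.Defs

/-!
# Stream B: definitions (continuous labels, averaged law, bins)
-/

set_option autoImplicit false

open Finset MeasureTheory

namespace RST

/-- I.i.d. uniform labels. -/
noncomputable def labLaw (n : ℕ) : Measure (Sym2 (Fin n) → ℝ) :=
  Measure.pi fun _ => volume.restrict (Set.Icc (0 : ℝ) 1)

/-- The `x`-coordinates of the labels. -/
noncomputable def xlab (n : ℕ) (ω : Sym2 (Fin n) → ℝ) : Sym2 (Fin n) → ℝ := fun e => n * ω e - 1

/-- The averaged law (labels on `Sym2 (Fin n)`). -/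
noncomputable def avg (n : ℕ) (β : ℝ) (S : Set (SimpleGraph (Fin n))) : ℝ :=
  ∫ ω, PT (fun e => Real.exp (-β * ω e)) S ∂labLaw n

/-- The bins of index at most `k`. -/
def lowBins {K : ℕ} (k : Fin K) : Finset (Fin (K + 1)) := univ.filter fun j => (j : ℕ) ≤ k

end RST
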