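import Pool.Agent.Lib.MP_7946c7_pr.Defs

/-!
# Stream B, job TraA: image of a product measure under a coordinatewise map to a finite set
-/

set_option autoImplicit false

open Finset MeasureTheory

namespace RST.B

/-- `{ω | f ∘ ω ∈ S}` is the disjoint union over `b ∈ S` of the boxes
`{ω | ∀ i, f (ω i) = b i} = Set.pi univ (fun i => f ⁻¹' {b i})`, of measure
`∏ i, μ (f ⁻¹' {b i})` (`Measure.pi_pi`); `PP q S = ∑ b, (∏ i, q (b i)) * (if b ∈ S then 1 else 0)`. -/
theorem map_bins {ι : Type} [Fintype ι] {K : ℕ} (μ : Measure ℝ) [IsProbabilityMeasure μ]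
    (f : ℝ → Fin (K + 1)) (hf : Measurable f) (S : Set (ι → Fin (K + 1))) :
    MeasurableSet {ω : ι → ℝ | (fun i => f (ω i)) ∈ S} ∧
    (Measure.pi (fun _ : ι => μ) {ω : ι → ℝ | (fun i => f (ω i)) ∈ S}).toReal =
      PP (fun j => (μ (f ⁻¹' {j})).toReal) S := by
  classical
  have hF : Measurable (fun (ω : ι → ℝ) (i : ι) => f (ω i)) :=
    measurable_pi_lambda _ fun i => hf.comp (measurable_pi_apply i)
  have hms : ∀ T : Set (ι → Fin (K + 1)), MeasurableSet T := fun T => T.toFinite.measurableSet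
  refine ⟨hF (hms S), ?_⟩
  have hbox : ∀ b : ι → Fin (K + 1), (fun (ω : ι → ℝ) (i : ι) => f (ω i)) ⁻¹' {b} =
      Set.univ.pi (fun i => f ⁻¹' {b i}) := by
    intro b
    ext ω
    simp only [Set.mem_preimage, Set.mem_singleton_iff, Set.mem_pi, Set.mem_univ, true_implies]
    exact funext_iff
  have h1 : {ω : ι → ℝ | (fun i => f (ω i)) ∈ S} =
      (fun (ω : ι → ℝ) (i : ι) => f (ω i)) ⁻¹'
        ((univ.filter fun b => b ∈ S : Finset (ι → Fin (K + 1))) : Set (ι → Fin (K + 1))) := by
    ext ω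
    simp
  have h2 := sum_measureReal_preimage_singleton (μ := Measure.pi (fun _ : ι => μ))
    (univ.filter fun b => b ∈ S : Finset (ι → Fin (K + 1)))
    (f := fun (ω : ι → ℝ) (i : ι) => f (ω i)) (fun y _ => hF (hms {y}))
    (fun _ _ => measure_ne_top _ _)
  rw [h1]
  change (Measure.pi (fun _ : ι => μ)).real _ = _
  rw [← h2]
  unfold PP EE
  rw [sum_filter]
  apply sum_congr rfl
  intro b _
  beta_reduce
  by_cases hb : b ∈ S
  · rw [if_pos hb, if_pos hb, mul_one, hbox b]
    unfold Measure.real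
    rw [Measure.pi_pi, ENNReal.toReal_prod]
  · rw [if_neg hb, if_neg hb, mul_zero]

/-- the image law is a probability vector -/
theorem isLaw_map {K : ℕ} (μ : Measure ℝ) [IsProbabilityMeasure μ]
    (f : ℝ → Fin (K + 1)) (hf : Measurable f) : IsLaw (fun j => (μ (f ⁻¹' {j})).toReal) := by
  refine ⟨fun _ => ENNReal.toReal_nonneg, ?_⟩
  have h2 := sum_measureReal_preimage_singleton (μ := μ) (univ : Finset (Fin (K + 1))) (f := f)
    (fun y _ => hf (measurableSet_singleton y)) (fun _ _ => measure_ne_top _ _)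
  change ∑ x, μ.real (f ⁻¹' {x}) = 1
  rw [h2, coe_univ, Set.preimage_univ]
  simp

/-- mass of a set of bins -/
theorem qs_map {K : ℕ} (μ : Measure ℝ) [IsProbabilityMeasure μ]
    (f : ℝ → Fin (K + 1)) (hf : Measurable f) (A : Finset (Fin (K + 1))) :
    qs (fun j => (μ (f ⁻¹' {j})).toReal) A = (μ {t | f t ∈ A}).toReal := by
  have h2 := sum_measureReal_preimage_singleton (μ := μ) A (f := f)
    (fun y _ => hf (measurableSet_singleton y)) (fun _ _ => measure_ne_top _ _)
  exact h2

end RST.B
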