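import Pool.Agent.Lib.MP_7946c7_pr.B.Defs
import Pool.Agent.Lib.MP_7946c7_pr.B.TraA

/-!
# Stream B, job TraB: transfer to bins
-/

set_option autoImplicit false

open Finset MeasureTheory

namespace RST.B

/-- the bin of the label `t`: the number of indices `k` with `x k < n t - 1` -/
noncomputable def binOf (n K : ℕ) (x : Fin K → ℝ) (t : ℝ) : Fin (K + 1) :=
  open Classical in
  ⟨(univ.filter fun k : Fin K => x k < n * t - 1).card, by
    have := Finset.card_filter_le (univ : Finset (Fin K)) (fun k : Fin K => x k < n * t - 1)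
    rw [card_univ, Fintype.card_fin] at this
    omega⟩

/-- for monotone `x`: the bin of `t` is at most `k` iff `n t - 1 ≤ x k` (the set
`{k | x k < n t - 1}` is an initial segment of `Fin K`, of cardinality `≤ k` iff it does not
contain `k`) -/
theorem binOf_le_iff (n K : ℕ) (x : Fin K → ℝ) (hx : Monotone x) (t : ℝ) (k : Fin K) :
    binOf n K x t ∈ lowBins k ↔ n * t - 1 ≤ x k := by
  classical
  unfold lowBins
  rw [Finset.mem_filter]
  constructor
  · rintro ⟨-, h⟩
    by_contra hc
    rw [not_le] at hc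
    have h1 : (Finset.Iic k).card ≤ (univ.filter fun j : Fin K => x j < n * t - 1).card := by
      apply Finset.card_le_card
      intro j hj
      rw [Finset.mem_Iic] at hj
      rw [Finset.mem_filter]
      exact ⟨Finset.mem_univ _, lt_of_le_of_lt (hx hj) hc⟩
    rw [Fin.card_Iic] at h1
    have h2 : ((binOf n K x t : Fin (K + 1)) : ℕ) =
        (univ.filter fun j : Fin K => x j < n * t - 1).card := by
      unfold binOf
      simp only
    omega
  · intro h
    refine ⟨Finset.mem_univ _, ?_⟩
    have h1 : (univ.filter fun j : Fin K => x j < n * t - 1).card ≤ (Finset.Iio k).card := by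
      apply Finset.card_le_card
      intro j hj
      rw [Finset.mem_filter] at hj
      rw [Finset.mem_Iio]
      by_contra hc
      rw [not_lt] at hc
      have := hx hc
      linarith [hj.2]
    rw [Fin.card_Iio] at h1
    have h2 : ((binOf n K x t : Fin (K + 1)) : ℕ) =
        (univ.filter fun j : Fin K => x j < n * t - 1).card := by
      unfold binOf
      simp only
    omega

theorem measurable_binOf (n K : ℕ) (x : Fin K → ℝ) : Measurable (binOf n K x) := by
  classical
  apply measurable_to_countable'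
  intro j
  have h1 : binOf n K x ⁻¹' {j} =
      ⋃ A ∈ ((univ : Finset (Finset (Fin K))).filter fun A => A.card = (j : ℕ)),
        ⋂ k : Fin K, {t : ℝ | (k ∈ A) ↔ x k < n * t - 1} := by
    ext t
    simp only [Set.mem_preimage, Set.mem_singleton_iff, Set.mem_iUnion, Finset.mem_filter,
      Finset.mem_univ, true_and, exists_prop, Set.mem_iInter]
    constructor
    · intro h
      refine ⟨univ.filter fun k : Fin K => x k < n * t - 1, ?_, ?_⟩
      · rw [← h]
        unfold binOf
        rfl
      · intro k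
        show (k ∈ univ.filter fun k : Fin K => x k < n * t - 1) ↔ x k < n * t - 1
        simp
    · rintro ⟨A, hA, hk⟩
      apply Fin.ext
      rw [← hA]
      have h2 : A = univ.filter fun k : Fin K => x k < n * t - 1 := by
        ext k
        rw [Finset.mem_filter]
        have := hk k
        constructor
        · intro h
          exact ⟨Finset.mem_univ _, this.1 h⟩
        · intro h
          exact this.2 h.2
      rw [h2]
      unfold binOf
      rfl
  rw [h1]
  apply Finset.measurableSet_biUnion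
  intro A _
  apply MeasurableSet.iInter
  intro k
  have hm : MeasurableSet {t : ℝ | x k < n * t - 1} :=
    measurableSet_lt measurable_const ((measurable_id.const_mul _).sub_const 1)
  by_cases hk : k ∈ A
  · have : {t : ℝ | (k ∈ A) ↔ x k < n * t - 1} = {t : ℝ | x k < n * t - 1} := by
      ext t
      show ((k ∈ A) ↔ x k < n * t - 1) ↔ x k < n * t - 1
      simp [hk]
    rw [this]
    exact hm
  · have : {t : ℝ | (k ∈ A) ↔ x k < n * t - 1} = {t : ℝ | x k < n * t - 1}ᶜ := by
      ext t
      show ((k ∈ A) ↔ x k < n * t - 1) ↔ ¬ (x k < n * t - 1)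
      simp [hk]
    rw [this]
    exact hm.compl

/-- Transfer to bins: the law of finitely many nested graphs `G(x k)`.  `q j = μ (binOf⁻¹ {j})`
with `μ = volume.restrict (Icc 0 1)`; `map_bins`, `isLaw_map`, `qs_map`:
`μ {t | n t - 1 ≤ x k} = (1 + x k)/n` (an interval `[0, (1+x k)/n]`, `0 ≤ (1 + x k)/n ≤ 1`);
`gr (xlab n ω) (x k) u v ↔ u ≠ v ∧ n ω s(u,v) - 1 ≤ x k ↔ adj (lowBins k) (binOf ∘ ω) u v`. -/
theorem transfer (n : ℕ) (hn : 0 < n) (K : ℕ) (x : Fin K → ℝ) (hx : Monotone x)
    (h0 : ∀ k, -1 ≤ x k) (h1 : ∀ k, x k ≤ n - 1) :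
    ∃ q : Fin (K + 1) → ℝ, IsLaw q ∧
      (∀ k : Fin K, qs q (lowBins k) = (1 + x k) / n) ∧
      ∀ Φ : Set (Fin K → Fin n → Fin n → Prop),
        MeasurableSet {ω | (fun k => gr (xlab n ω) (x k)) ∈ Φ} ∧
        (labLaw n {ω | (fun k => gr (xlab n ω) (x k)) ∈ Φ}).toReal =
          PP q {b : Sym2 (Fin n) → Fin (K + 1) |
            (fun k : Fin K => adj (lowBins k) b) ∈ Φ} := by
  have hn' : (0 : ℝ) < n := by exact_mod_cast hn
  have hprob : IsProbabilityMeasure (volume.restrict (Set.Icc (0 : ℝ) 1)) := by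
    constructor
    rw [Measure.restrict_apply_univ, Real.volume_Icc]
    simp
  have hm := measurable_binOf n K x
  refine ⟨fun j => ((volume.restrict (Set.Icc (0 : ℝ) 1)) (binOf n K x ⁻¹' {j})).toReal,
    isLaw_map _ _ hm, ?_, ?_⟩
  · intro k
    rw [qs_map _ _ hm]
    have e1 : {t : ℝ | binOf n K x t ∈ lowBins k} = Set.Iic ((1 + x k) / n) := by
      ext t
      show binOf n K x t ∈ lowBins k ↔ t ≤ (1 + x k) / n
      rw [binOf_le_iff n K x hx t k, le_div_iff₀ hn']
      constructor <;> intro h <;> linarith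
    rw [e1, Measure.restrict_apply measurableSet_Iic]
    have e2 : Set.Iic ((1 + x k) / n) ∩ Set.Icc (0 : ℝ) 1 = Set.Icc 0 ((1 + x k) / n) := by
      have h2 : (1 + x k) / n ≤ 1 := by
        rw [div_le_one hn']
        linarith [h1 k]
      ext t
      simp only [Set.mem_inter_iff, Set.mem_Iic, Set.mem_Icc]
      constructor
      · rintro ⟨a, b, c⟩
        exact ⟨b, a⟩
      · rintro ⟨a, b⟩
        exact ⟨b, a, b.trans h2⟩
    have h3 : 0 ≤ (1 + x k) / n := by
      apply div_nonneg _ hn'.le
      linarith [h0 k]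
    rw [e2, Real.volume_Icc, sub_zero, ENNReal.toReal_ofReal h3]
  · intro Φ
    have e1 : ∀ ω : Sym2 (Fin n) → ℝ, (fun k => gr (xlab n ω) (x k)) =
        fun k : Fin K => adj (lowBins k) (fun e => binOf n K x (ω e)) := by
      intro ω
      funext k u v
      unfold gr adj xlab
      rw [binOf_le_iff n K x hx]
    have e2 : {ω : Sym2 (Fin n) → ℝ | (fun k => gr (xlab n ω) (x k)) ∈ Φ} =
        {ω : Sym2 (Fin n) → ℝ | (fun e => binOf n K x (ω e)) ∈
          {b : Sym2 (Fin n) → Fin (K + 1) | (fun k : Fin K => adj (lowBins k) b) ∈ Φ}} := by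
      ext ω
      show (fun k => gr (xlab n ω) (x k)) ∈ Φ ↔
        (fun k : Fin K => adj (lowBins k) (fun e => binOf n K x (ω e))) ∈ Φ
      rw [e1 ω]
    rw [e2]
    exact map_bins (volume.restrict (Set.Icc (0 : ℝ) 1)) (binOf n K x) hm _

end RST.B
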